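import Mathlib
set_option autoImplicit false
open MeasureTheory

namespace Pool.Agent.Results.MP_909498_an.TranslateOrbit

/-!
Bounded operator orbits and overcomplete frames of translates: no enumeration by the natural
numbers of an overcomplete frame of translates is the orbit of a bounded operator.

Idea. Let S be the frame operator on the closed span. For a bounded orbit the canonical
coefficients of the next vector are compared with the shifted canonical coefficients of the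
present one; for translates both have the same norm, so they coincide. This makes the kernel
(f_k, S^(-1) f_j) diagonal, and the system is a Riesz sequence.
-/

/-- The Hilbert space of square integrable complex functions on the real line. -/
noncomputable abbrev L2 := Lp ℂ 2 (volume : Measure ℝ)

/-- The family `f` is the shift-invariant system of `φ` with step `b`: `f k` is the function
`x ↦ φ (x - k b)`. -/
def IsShiftSystem (b : ℝ) (φ : L2) (f : ℤ → L2) : Prop :=
  ∀ k : ℤ, (f k : ℝ → ℂ) =ᵐ[volume] fun x => (φ : ℝ → ℂ) (x - k * b)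

/-- Frame sequence: there are bounds `A, B > 0` with `A ‖x‖² ≤ ∑ |⟨f i, x⟩|² ≤ B ‖x‖²` for all
`x` in the closed linear span. -/
def IsFrameSequence {H : Type*} [NormedAddCommGroup H] [InnerProductSpace ℂ H] {ι : Type*}
    (f : ι → H) : Prop :=
  ∃ A B : ℝ, 0 < A ∧ 0 < B ∧ ∀ x ∈ closure (Submodule.span ℂ (Set.range f) : Set H),
    Summable (fun i => ‖inner ℂ (f i) x‖ ^ 2) ∧
    A * ‖x‖ ^ 2 ≤ ∑' i, ‖inner ℂ (f i) x‖ ^ 2 ∧ ∑' i, ‖inner ℂ (f i) x‖ ^ 2 ≤ B * ‖x‖ ^ 2

/-- Riesz basis for the closed linear span: there are `A, B > 0` with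
`A ∑ |c i|² ≤ ‖∑ c i • f i‖² ≤ B ∑ |c i|²` for all finite families of scalars. -/
def IsRieszSequence {H : Type*} [NormedAddCommGroup H] [InnerProductSpace ℂ H] {ι : Type*}
    (f : ι → H) : Prop :=
  ∃ A B : ℝ, 0 < A ∧ 0 < B ∧ ∀ (s : Finset ι) (c : ι → ℂ),
    A * ∑ i ∈ s, ‖c i‖ ^ 2 ≤ ‖∑ i ∈ s, c i • f i‖ ^ 2 ∧
    ‖∑ i ∈ s, c i • f i‖ ^ 2 ≤ B * ∑ i ∈ s, ‖c i‖ ^ 2

/-- `T` is linear and bounded on the subspace `V`. -/
structure IsBoundedLinearOn {H : Type*} [NormedAddCommGroup H] [InnerProductSpace ℂ H]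
    (V : Set H) (T : H → H) : Prop where
  add : ∀ x ∈ V, ∀ y ∈ V, T (x + y) = T x + T y
  smul : ∀ (c : ℂ), ∀ x ∈ V, T (c • x) = c • T x
  bdd : ∃ C : ℝ, ∀ x ∈ V, ‖T x‖ ≤ C * ‖x‖

/-- The sequence `F` is represented by a bounded operator: there is a linear operator `T`, bounded
on the span of `F`, with `F k = T ^ k (F 0)` for all `k`. -/
def IsBoundedOrbit {H : Type*} [NormedAddCommGroup H] [InnerProductSpace ℂ H] (F : ℕ → H) : Prop :=
  ∃ T : H → H, IsBoundedLinearOn (Submodule.span ℂ (Set.range F) : Set H) T ∧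
    ∀ k, F k = T^[k] (F 0)

section general

variable {H : Type*} [NormedAddCommGroup H] [InnerProductSpace ℂ H]
variable {ι : Type*}

/-- Upper bound. -/
def Bes (f : ι → H) : Prop :=
  ∃ B : ℝ, 0 < B ∧ ∀ x : H, Summable (fun i => ‖inner ℂ (f i) x‖ ^ 2) ∧
    ∑' i, ‖inner ℂ (f i) x‖ ^ 2 ≤ B * ‖x‖ ^ 2

lemma norm_sq_lp (c : lp (fun _ : ι => ℂ) 2) : ‖c‖ ^ 2 = ∑' i, ‖c i‖ ^ 2 := by
  have h := lp.norm_rpow_eq_tsum (p := 2) (by norm_num) c
  have e : ENNReal.toReal 2 = ((2 : ℕ) : ℝ) := by norm_num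
  rw [e] at h
  simp only [Real.rpow_natCast] at h
  exact h

lemma summable_sq_lp (c : lp (fun _ : ι => ℂ) 2) : Summable (fun i => ‖c i‖ ^ 2) := by
  have h := (lp.memℓp c).summable (by norm_num)
  have e : ENNReal.toReal 2 = ((2 : ℕ) : ℝ) := by norm_num
  rw [e] at h
  simp only [Real.rpow_natCast] at h
  exact h

lemma mem_of_summable (c : ι → ℂ) (h : Summable (fun i => ‖c i‖ ^ 2)) : Memℓp c 2 := by
  apply memℓp_gen
  have e : ENNReal.toReal 2 = ((2 : ℕ) : ℝ) := by norm_num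
  rw [e]
  simp only [Real.rpow_natCast]
  exact h

/-- analysis -/
noncomputable def an (f : ι → H) (hf : Bes f) : H →L[ℂ] lp (fun _ : ι => ℂ) 2 :=
  LinearMap.mkContinuous
    { toFun := fun x => ⟨fun i => inner ℂ (f i) x,
        mem_of_summable _ (by obtain ⟨B, _, h⟩ := hf; exact (h x).1)⟩
      map_add' := fun x y => by ext i; exact inner_add_right _ _ _
      map_smul' := fun c x => by ext i; exact inner_smul_right _ _ _ }
    (Real.sqrt hf.choose) (by
      intro x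
      obtain ⟨hB, h⟩ := hf.choose_spec
      have h2 := (h x).2
      apply le_of_sq_le_sq _ (by positivity)
      rw [norm_sq_lp, mul_pow, Real.sq_sqrt hB.le]
      exact h2)

lemma an_apply (f : ι → H) (hf : Bes f) (x : H) (i : ι) : an f hf x i = inner ℂ (f i) x := rfl

lemma norm_an (f : ι → H) (hf : Bes f) (x : H) :
    ‖an f hf x‖ ^ 2 = ∑' i, ‖inner ℂ (f i) x‖ ^ 2 := norm_sq_lp _

variable [CompleteSpace H]

noncomputable def sy (f : ι → H) (hf : Bes f) : lp (fun _ : ι => ℂ) 2 →L[ℂ] H :=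
  ContinuousLinearMap.adjoint (an f hf)

lemma sy_single [DecidableEq ι] (f : ι → H) (hf : Bes f) (i : ι) (z : ℂ) :
    sy f hf (lp.single 2 i z) = z • f i := by
  apply ext_inner_right ℂ
  intro x
  unfold sy
  rw [ContinuousLinearMap.adjoint_inner_left, lp.inner_single_left, an_apply, inner_smul_left]
  simp [mul_comm]

lemma sy_hasSum (f : ι → H) (hf : Bes f) (c : lp (fun _ : ι => ℂ) 2) :
    HasSum (fun i => c i • f i) (sy f hf c) := by
  classical
  have h := (lp.hasSum_single (p := 2) (by norm_num) c).mapL (sy f hf)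
  simpa only [sy_single] using h

lemma sy_an_inner (f : ι → H) (hf : Bes f) (x : H) :
    inner ℂ (sy f hf (an f hf x)) x = ((∑' i, ‖inner ℂ (f i) x‖ ^ 2 : ℝ) : ℂ) := by
  unfold sy
  rw [ContinuousLinearMap.adjoint_inner_left, inner_self_eq_norm_sq_to_K, ← norm_an]
  norm_cast

lemma sy_inner (f : ι → H) (hf : Bes f) (c : lp (fun _ : ι => ℂ) 2) (x : H) :
    inner ℂ (sy f hf c) x = inner ℂ c (an f hf x) := by
  unfold sy
  rw [ContinuousLinearMap.adjoint_inner_left]

/-- frame operator is invertible -/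
lemma frame_inv (f : ι → H) (hf : Bes f) (A : ℝ) (hA : 0 < A)
    (h : ∀ x, A * ‖x‖ ^ 2 ≤ ∑' i, ‖inner ℂ (f i) x‖ ^ 2) :
    ∃ R : H →L[ℂ] H, (∀ x, R (sy f hf (an f hf x)) = x) ∧ (∀ x, sy f hf (an f hf (R x)) = x) := by
  have hu : IsUnit ((sy f hf).comp (an f hf)) := by
    refine ContinuousLinearMap.isUnit_of_forall_le_norm_inner_map _ (c := A.toNNReal)
      (Real.toNNReal_pos.2 hA) ?_
    intro x
    have h1 := sy_an_inner f hf x
    rw [ContinuousLinearMap.comp_apply, h1, Complex.norm_real, Real.coe_toNNReal _ hA.le]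
    refine le_trans ?_ (le_abs_self _)
    have := h x
    linarith
  obtain ⟨u, hu⟩ := hu
  refine ⟨(u⁻¹ : (H →L[ℂ] H)ˣ), fun x => ?_, fun x => ?_⟩
  · have h1 : ((u⁻¹ : (H →L[ℂ] H)ˣ) : H →L[ℂ] H) * ((sy f hf).comp (an f hf)) = 1 := by
      rw [← hu]; simp
    exact congrArg (fun T : H →L[ℂ] H => T x) h1
  · have h1 : ((sy f hf).comp (an f hf)) * ((u⁻¹ : (H →L[ℂ] H)ˣ) : H →L[ℂ] H) = 1 := by
      rw [← hu]; simp
    exact congrArg (fun T : H →L[ℂ] H => T x) h1

/-- Toeplitz property -/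
lemma toeplitz (f : ι → H) (hf : Bes f) (R T : H →L[ℂ] H) (τ : ι → ι) (hτ : Function.Injective τ)
    (hR2 : ∀ x, sy f hf (an f hf (R x)) = x)
    (hT : ∀ i, T (f i) = f (τ i)) (v : ℝ) (hv : ∀ i, inner ℂ (f i) (R (f i)) = (v : ℂ)) (i : ι) :
    (∀ j, inner ℂ (f (τ j)) (R (f (τ i))) = inner ℂ (f j) (R (f i))) ∧
    (∀ m, m ∉ Set.range τ → inner ℂ (f m) (R (f (τ i))) = 0) := by
  classical
  set c : lp (fun _ : ι => ℂ) 2 := an f hf (R (f i)) with hc
  have hcn : ‖c‖ ^ 2 = v := by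
    have h1 : ((‖c‖ ^ 2 : ℝ) : ℂ) = (v : ℂ) := by
      have h2 : inner ℂ c c = (v : ℂ) := by
        rw [hc, ← sy_inner, hR2, hv]
      rw [← h2, inner_self_eq_norm_sq_to_K]
      norm_cast
    exact_mod_cast h1
  set c' : ι → ℂ := Function.extend τ c 0 with hc'
  have hc1 : ∀ j, c' (τ j) = c j := fun j => hτ.extend_apply _ _ _
  have hc2 : ∀ m, m ∉ Set.range τ → c' m = 0 := fun m hm => by
    rw [hc', Function.extend_apply']
    · rfl
    · simpa using hm
  have hs : Summable (fun i => ‖c' i‖ ^ 2) := by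
    rw [← hτ.summable_iff (f := fun i => ‖c' i‖ ^ 2)]
    · have := summable_sq_lp c
      refine this.congr ?_
      intro j; simp [hc1]
    · intro m hm; simp [hc2 m hm]
  set d : lp (fun _ : ι => ℂ) 2 := ⟨c', mem_of_summable _ hs⟩ with hd
  have hdn : ‖d‖ ^ 2 = v := by
    rw [← hcn, norm_sq_lp, norm_sq_lp]
    have : ∑' i, ‖c' i‖ ^ 2 = ∑' j, ‖c' (τ j)‖ ^ 2 := by
      rw [hτ.tsum_eq (f := fun i => ‖c' i‖ ^ 2)]
      intro m hm
      by_contra h
      apply hm
      simp [hc2 m h]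
    change ∑' i, ‖c' i‖ ^ 2 = _
    rw [this]
    simp [hc1]
  have hsd : sy f hf d = f (τ i) := by
    have h1 := sy_hasSum f hf d
    have h2 := (sy_hasSum f hf c).mapL T
    rw [hc, hR2, hT] at h2
    have h3 : HasSum (fun i => d i • f i) (f (τ i)) := by
      rw [← hτ.hasSum_iff]
      · convert h2 using 2 with j
        simp only [Function.comp]
        rw [map_smul, hT]
        change c' (τ j) • _ = _
        rw [hc1]
      · intro m hm
        change c' m • _ = 0
        rw [hc2 m hm, zero_smul]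
    exact h1.unique h3
  set e := an f hf (R (f (τ i))) with he
  have hen : ‖e‖ ^ 2 = v := by
    have h1 : ((‖e‖ ^ 2 : ℝ) : ℂ) = (v : ℂ) := by
      have h2 : inner ℂ e e = (v : ℂ) := by
        rw [he, ← sy_inner, hR2, hv]
      rw [← h2, inner_self_eq_norm_sq_to_K]
      norm_cast
    exact_mod_cast h1
  have hde : inner ℂ d e = (v : ℂ) := by
    rw [he, ← sy_inner, hsd, hv]
  have hz : ‖d - e‖ ^ 2 = 0 := by
    rw [@norm_sub_sq ℂ, hde, hdn, hen]
    simp; ring
  have hde' : d = e := by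
    rw [pow_eq_zero_iff (by norm_num), norm_eq_zero, sub_eq_zero] at hz
    exact hz
  refine ⟨fun j => ?_, fun m hm => ?_⟩
  · have h1 : d (τ j) = e (τ j) := by rw [hde']
    rw [he, an_apply] at h1
    rw [← h1]
    change c' (τ j) = _
    rw [hc1, hc, an_apply]
  · have h1 : d m = e m := by rw [hde']
    rw [he, an_apply] at h1
    rw [← h1]
    exact hc2 m hm

lemma sy_an_hasSum (f : ι → H) (hf : Bes f) (x : H) :
    HasSum (fun i => (inner ℂ (f i) x : ℂ) • f i) (sy f hf (an f hf x)) := by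
  simpa only [an_apply] using sy_hasSum f hf (an f hf x)

/-- reindexing does not change the frame operator -/
lemma reindex_eq {κ : Type*} (σ : κ ≃ ι) (f : ι → H) (hf : Bes f) (hF : Bes (fun k => f (σ k)))
    (x : H) : sy (fun k => f (σ k)) hF (an (fun k => f (σ k)) hF x) = sy f hf (an f hf x) := by
  have h1 := sy_an_hasSum f hf x
  have h2 := sy_an_hasSum (fun k => f (σ k)) hF x
  rw [← σ.hasSum_iff] at h1
  exact h2.unique h1

omit [CompleteSpace H] in
lemma bes_reindex {κ : Type*} (σ : κ ≃ ι) (f : ι → H) (hf : Bes f) : Bes (fun k => f (σ k)) := by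
  obtain ⟨B, hB, h⟩ := hf
  refine ⟨B, hB, fun x => ⟨?_, ?_⟩⟩
  · exact (σ.summable_iff (f := fun i => ‖inner ℂ (f i) x‖ ^ 2)).2 (h x).1
  · rw [σ.tsum_eq (fun i => ‖inner ℂ (f i) x‖ ^ 2)]
    exact (h x).2

/-- covariance -/
lemma covariance (f : ι → H) (hf : Bes f) (R : H →L[ℂ] H)
    (hR1 : ∀ x, R (sy f hf (an f hf x)) = x) (hR2 : ∀ x, sy f hf (an f hf (R x)) = x)
    (π : H →ₗᵢ[ℂ] H) (ρ : ι ≃ ι) (u : ι → ℂ) (hu : ∀ i, ‖u i‖ = 1)
    (hπ : ∀ i, π (f i) = u i • f (ρ i)) (i j : ι) :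
    ‖(inner ℂ (f (ρ i)) (R (f (ρ j))) : ℂ)‖ = ‖(inner ℂ (f i) (R (f j)) : ℂ)‖ := by
  have h0 : ∀ i, f (ρ i) = (starRingEnd ℂ (u i)) • π (f i) := by
    intro i
    rw [hπ, smul_smul, mul_comm, Complex.mul_conj, Complex.normSq_eq_norm_sq, hu]
    simp
  have h1 : ∀ x, sy f hf (an f hf (π x)) = π (sy f hf (an f hf x)) := by
    intro x
    have a1 := sy_an_hasSum f hf (π x)
    have a2 := (sy_an_hasSum f hf x).mapL π.toContinuousLinearMap
    rw [← ρ.hasSum_iff] at a1
    refine a1.unique ?_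
    have e1 : ∀ k, π.toContinuousLinearMap ((inner ℂ (f k) x : ℂ) • f k) =
      (inner ℂ (f k) x : ℂ) • π (f k) := by
      intro k; rw [map_smul]; rfl
    convert a2 using 2 with k
    · rw [e1, hπ k, smul_smul]
      change (inner ℂ (f (ρ k)) (π x) : ℂ) • f (ρ k) = _
      congr 1
      rw [h0, inner_smul_left, π.inner_map_map]
      simp [mul_comm]
    · rfl
  have h2 : ∀ x, R (π x) = π (R x) := by
    intro x
    have := h1 (R x)
    rw [hR2] at this
    rw [← this, hR1]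
  rw [h0 i, h0 j, map_smul, h2, inner_smul_left, inner_smul_right, π.inner_map_map]
  rw [norm_mul, norm_mul]
  simp [hu]

lemma inner_R (f : ι → H) (hf : Bes f) (R : H →L[ℂ] H)
    (hR2 : ∀ x, sy f hf (an f hf (R x)) = x) (x y : H) :
    inner ℂ x (R y) = inner ℂ (an f hf (R x)) (an f hf (R y)) := by
  rw [← sy_inner, hR2]

lemma riesz_of_orth (f : ι → H) (hf : Bes f) (R : H →L[ℂ] H)
    (hR2 : ∀ x, sy f hf (an f hf (R x)) = x) (v : ℂ) (hv : v ≠ 0)
    (h1 : ∀ i, inner ℂ (f i) (R (f i)) = v) (h2 : ∀ i j, i ≠ j → inner ℂ (f i) (R (f j)) = 0) :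
    IsRieszSequence f := by
  classical
  have hsym : ∀ x y, inner ℂ x (R y) = inner ℂ (R x) y := by
    intro x y
    rw [inner_R f hf R hR2 x y, ← inner_conj_symm, ← inner_R f hf R hR2 y x, inner_conj_symm]
  have hker : LinearMap.ker (sy f hf : lp (fun _ : ι => ℂ) 2 →ₗ[ℂ] H) = ⊥ := by
    rw [LinearMap.ker_eq_bot']
    intro c hc
    have h3 := sy_hasSum f hf c
    have hc' : sy f hf c = 0 := hc
    rw [hc'] at h3
    ext k
    have h4 := h3.mapL (innerSL ℂ (R (f k)))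
    have h5 : HasSum (fun i => c i * inner ℂ (f k) (R (f i))) (c k * v) := by
      rw [← h1 k]
      apply hasSum_single
      intro i hi
      rw [h2 k i (Ne.symm hi), mul_zero]
    have h6 : HasSum (fun i => c i * inner ℂ (f k) (R (f i))) 0 := by
      simp only [map_zero, map_smul, smul_eq_mul, innerSL_apply_apply] at h4
      simpa only [hsym] using h4
    have h7 := h5.unique h6
    have h8 : c k = 0 := by
      rcases mul_eq_zero.1 h7 with h | h
      · exact h
      · exact absurd h hv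
    simpa using h8
  have hran : LinearMap.range (sy f hf : lp (fun _ : ι => ℂ) 2 →ₗ[ℂ] H) = ⊤ := by
    rw [LinearMap.range_eq_top]
    intro x
    exact ⟨an f hf (R x), hR2 x⟩
  set V := ContinuousLinearEquiv.ofBijective (sy f hf) hker hran with hV
  have hVs : ∀ (s : Finset ι) (c : ι → ℂ), V (∑ i ∈ s, lp.single 2 i (c i)) =
      ∑ i ∈ s, c i • f i := by
    intro s c
    rw [map_sum]
    refine Finset.sum_congr rfl fun i _ => ?_
    exact sy_single f hf i (c i)
  have hn : ∀ (s : Finset ι) (c : ι → ℂ),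
      ‖(∑ i ∈ s, lp.single 2 i (c i) : lp (fun _ : ι => ℂ) 2)‖ ^ 2 = ∑ i ∈ s, ‖c i‖ ^ 2 := by
    intro s c
    have h := lp.norm_sum_single (E := fun _ : ι => ℂ) (p := 2) (by norm_num) c s
    have e : ENNReal.toReal 2 = ((2 : ℕ) : ℝ) := by norm_num
    rw [e] at h
    simp only [Real.rpow_natCast] at h
    exact h
  refine ⟨(‖(V.symm : H →L[ℂ] lp (fun _ : ι => ℂ) 2)‖ ^ 2 + 1)⁻¹,
    ‖(V : lp (fun _ : ι => ℂ) 2 →L[ℂ] H)‖ ^ 2 + 1, by positivity, by positivity,
    fun s c => ⟨?_, ?_⟩⟩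
  · rw [← hVs, ← hn, inv_mul_le_iff₀ (by positivity)]
    set c' : lp (fun _ : ι => ℂ) 2 := ∑ i ∈ s, lp.single 2 i (c i)
    have h1 : ‖c'‖ ≤ ‖(V.symm : H →L[ℂ] lp (fun _ : ι => ℂ) 2)‖ * ‖V c'‖ := by
      have := (V.symm : H →L[ℂ] lp (fun _ : ι => ℂ) 2).le_opNorm (V c')
      simpa using this
    have h2 : ‖c'‖ ^ 2 ≤ (‖(V.symm : H →L[ℂ] lp (fun _ : ι => ℂ) 2)‖ * ‖V c'‖) ^ 2 := by gcongr
    nlinarith [sq_nonneg ‖V c'‖]
  · rw [← hVs, ← hn]
    set c' : lp (fun _ : ι => ℂ) 2 := ∑ i ∈ s, lp.single 2 i (c i)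
    have h1 : ‖V c'‖ ≤ ‖(V : lp (fun _ : ι => ℂ) 2 →L[ℂ] H)‖ * ‖c'‖ :=
      (V : lp (fun _ : ι => ℂ) 2 →L[ℂ] H).le_opNorm c'
    have h2 : ‖V c'‖ ^ 2 ≤ (‖(V : lp (fun _ : ι => ℂ) 2 →L[ℂ] H)‖ * ‖c'‖) ^ 2 := by gcongr
    nlinarith [sq_nonneg ‖c'‖]


/-- No bounded orbit in a homogeneous situation. -/
lemma no_orbit (f : ι → H) (hf : Bes f) (A : ℝ) (hA : 0 < A)
    (h : ∀ x, A * ‖x‖ ^ 2 ≤ ∑' i, ‖inner ℂ (f i) x‖ ^ 2)
    (hom : ∀ i j : ι, ∃ (π : H →ₗᵢ[ℂ] H) (ρ : ι ≃ ι), (∀ k, π (f k) = f (ρ k)) ∧ ρ i = j)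
    (hne : ∃ i, f i ≠ 0)
    (σ : ℕ ≃ ι) (T : H →L[ℂ] H) (hT : ∀ k, T (f (σ k)) = f (σ (k + 1))) : IsRieszSequence f := by
  obtain ⟨R, hR1, hR2⟩ := frame_inv f hf A hA h
  obtain ⟨i₀, hi₀⟩ := hne
  have hdiag : ∀ μ, (inner ℂ (f μ) (R (f μ)) : ℂ) = ((‖an f hf (R (f μ))‖ ^ 2 : ℝ) : ℂ) := by
    intro μ
    rw [inner_R f hf R hR2, inner_self_eq_norm_sq_to_K]
    norm_cast
  have hd : ∀ i, (inner ℂ (f i) (R (f i)) : ℂ) = ((‖an f hf (R (f i₀))‖ ^ 2 : ℝ) : ℂ) := by
    intro i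
    obtain ⟨π, ρ, hπ, hρ⟩ := hom i₀ i
    have h1 := covariance f hf R hR1 hR2 π ρ (fun _ => 1) (fun _ => by simp)
      (fun k => by rw [hπ, one_smul]) i₀ i₀
    rw [hρ, hdiag, hdiag, Complex.norm_real, Complex.norm_real, Real.norm_of_nonneg (by positivity),
      Real.norm_of_nonneg (by positivity)] at h1
    rw [hdiag, h1]
  have hF := bes_reindex σ f hf
  have hR2' : ∀ x, sy (fun k => f (σ k)) hF (an (fun k => f (σ k)) hF (R x)) = x := by
    intro x; rw [reindex_eq σ f hf hF]; exact hR2 x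
  have ht := toeplitz (fun k => f (σ k)) hF R T (fun k => k + 1) (add_left_injective 1) hR2' hT
    _ (fun i => hd (σ i))
  have h1 : ∀ i j, (inner ℂ (f (σ i)) (R (f (σ (i + j + 1)))) : ℂ) = 0 := by
    intro i
    induction i with
    | zero =>
      intro j
      have := (ht j).2 0 (by simp)
      simpa using this
    | succ i ih =>
      intro j
      have := (ht (i + j + 1)).1 i
      have e : i + 1 + j + 1 = i + j + 1 + 1 := by ring
      rw [e]
      exact this.trans (ih j)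
  have h2 : ∀ i j, (inner ℂ (f (σ (i + j + 1))) (R (f (σ i))) : ℂ) = 0 := by
    intro i j
    rw [inner_R f hf R hR2, ← inner_conj_symm, ← inner_R f hf R hR2, h1, map_zero]
  refine riesz_of_orth f hf R hR2 _ ?_ hd ?_
  · intro h0
    have h3 : ‖an f hf (R (f i₀))‖ ^ 2 = 0 := by exact_mod_cast h0
    have h4 : an f hf (R (f i₀)) = 0 := by simpa using h3
    have h5 := hR2 (f i₀)
    rw [h4, map_zero] at h5
    exact hi₀ h5.symm
  · intro μ l hne
    obtain ⟨i, rfl⟩ := σ.surjective μ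
    obtain ⟨j, rfl⟩ := σ.surjective l
    have hij : i ≠ j := fun h => hne (by rw [h])
    rcases Nat.lt_or_gt_of_ne hij with hlt | hlt
    · obtain ⟨k, rfl⟩ := Nat.exists_eq_add_of_lt hlt
      exact h1 i k
    · obtain ⟨k, rfl⟩ := Nat.exists_eq_add_of_lt hlt
      exact h2 j k

end general

/-- Modulation factor. -/
noncomputable def md (β x : ℝ) : ℂ := Complex.exp (((2 * Real.pi * β * x : ℝ) : ℂ) * Complex.I)

lemma norm_md (β x : ℝ) : ‖md β x‖ = 1 := Complex.norm_exp_ofReal_mul_I _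

lemma md_add (β β' x : ℝ) : md (β + β') x = md β x * md β' x := by
  unfold md
  rw [← Complex.exp_add]
  congr 1
  push_cast
  ring

lemma md_sub (β x y : ℝ) : md β (x - y) = md β x * md β (-y) := by
  unfold md
  rw [← Complex.exp_add]
  congr 1
  push_cast
  ring

lemma eLpNorm_tf (α β : ℝ) (u : ℝ → ℂ) (hu : AEStronglyMeasurable u volume) :
    eLpNorm (fun x => md β x * u (x - α)) 2 volume = eLpNorm u 2 volume := by
  have h1 : eLpNorm (fun x => md β x * u (x - α)) 2 volume =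
      eLpNorm (fun x => u (x - α)) 2 volume := by
    apply eLpNorm_congr_norm_ae
    filter_upwards with x
    rw [norm_mul, norm_md, one_mul]
  rw [h1]
  exact eLpNorm_comp_measurePreserving hu (measurePreserving_sub_right (volume : Measure ℝ) α)

lemma memLp_tf (α β : ℝ) {u : ℝ → ℂ} (hu : MemLp u 2 volume) :
    MemLp (fun x => md β x * u (x - α)) 2 volume := by
  refine ⟨?_, ?_⟩
  · apply AEStronglyMeasurable.mul
    · apply Continuous.aestronglyMeasurable
      unfold md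
      fun_prop
    · exact hu.1.comp_measurePreserving (measurePreserving_sub_right (volume : Measure ℝ) α)
  · rw [eLpNorm_tf α β u hu.1]; exact hu.2

/-- Time frequency shift as a linear isometry. -/
noncomputable def tf (α β : ℝ) : L2 →ₗᵢ[ℂ] L2 where
  toFun u := MemLp.toLp (fun x => md β x * (u : ℝ → ℂ) (x - α)) (memLp_tf α β (Lp.memLp u))
  map_add' u v := by
    rw [← MemLp.toLp_add]
    apply MemLp.toLp_congr
    have h := (measurePreserving_sub_right (volume : Measure ℝ) α).quasiMeasurePreserving.ae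
      (Lp.coeFn_add u v)
    filter_upwards [h] with x hx
    rw [hx]
    simp [mul_add]
  map_smul' c u := by
    rw [RingHom.id_apply, ← MemLp.toLp_const_smul]
    apply MemLp.toLp_congr
    have h := (measurePreserving_sub_right (volume : Measure ℝ) α).quasiMeasurePreserving.ae
      (Lp.coeFn_smul c u)
    filter_upwards [h] with x hx
    rw [hx]
    simp [mul_left_comm]
  norm_map' u := by
    simp only [LinearMap.coe_mk, AddHom.coe_mk, Lp.norm_toLp]
    rw [eLpNorm_tf α β _ (Lp.memLp u).1, Lp.norm_def]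

lemma coeFn_tf (α β : ℝ) (u : L2) :
    (tf α β u : ℝ → ℂ) =ᵐ[volume] fun x => md β x * (u : ℝ → ℂ) (x - α) :=
  MemLp.coeFn_toLp (memLp_tf α β (Lp.memLp u))


lemma shift_tf (b : ℝ) (φ : L2) (f : ℤ → L2) (hf : IsShiftSystem b φ f) (m k : ℤ) :
    tf (m * b) 0 (f k) = f (k + m) := by
  apply Lp.ext
  have h1 := coeFn_tf (m * b) 0 (f k)
  have h3 := hf (k + m)
  have h4 := (measurePreserving_sub_right (volume : Measure ℝ) (m * b)).quasiMeasurePreserving.ae
      (hf k)
  filter_upwards [h1, h3, h4] with x hx1 hx3 hx4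
  rw [hx1, hx3, hx4]
  have e0 : md 0 x = 1 := by unfold md; simp
  rw [e0, one_mul]
  congr 1
  push_cast
  ring

/-- For every overcomplete frame of translates and every enumeration of it by the natural
numbers, the sequence is not represented by a bounded operator. -/
theorem result (b : ℝ) (_hb : 0 < b) (φ : L2) (hφ : φ ≠ 0) (f : ℤ → L2)
    (hf : IsShiftSystem b φ f) (hframe : IsFrameSequence f) (hover : ¬ IsRieszSequence f)
    (σ : ℕ ≃ ℤ) : ¬ IsBoundedOrbit (fun k => f (σ k)) := by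
  rintro ⟨T₀, ⟨hadd, hsmul, C, hC⟩, hT₀⟩
  apply hover
  obtain ⟨A, B, hA, hB, h⟩ := hframe
  set W : Submodule ℂ L2 := Submodule.span ℂ (Set.range f) with hW
  set K : Submodule ℂ L2 := W.topologicalClosure with hK
  have hWK : W ≤ K := W.le_topologicalClosure
  have hrange : Set.range (fun k => f (σ k)) = Set.range f := σ.surjective.range_comp f
  rw [hrange] at hadd hsmul hC
  have hfK : ∀ i, f i ∈ K := fun i => hWK (Submodule.subset_span ⟨i, rfl⟩)
  have : CompleteSpace K := W.isClosed_topologicalClosure.completeSpace_coe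
  set f' : ℤ → K := fun i => ⟨f i, hfK i⟩ with hf'
  have hin : ∀ (i : ℤ) (x : K), (inner ℂ (f' i) x : ℂ) = inner ℂ (f i) (x : L2) := fun i x => rfl
  have hKc : ∀ x : K, (x : L2) ∈ closure (W : Set L2) := fun x => x.2
  have hB' : Bes f' := by
    refine ⟨B, hB, fun x => ⟨?_, ?_⟩⟩
    · exact (h x (hKc x)).1
    · exact (h x (hKc x)).2.2
  have hA' : ∀ x : K, A * ‖x‖ ^ 2 ≤ ∑' i, ‖(inner ℂ (f' i) x : ℂ)‖ ^ 2 := fun x => (h x (hKc x)).2.1
  have hf0 : f 0 = φ := by
    apply Lp.ext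
    filter_upwards [hf 0] with x hx
    rw [hx]; simp
  have hTf : ∀ k, T₀ (f (σ k)) = f (σ (k + 1)) := by
    intro k
    have h1 := hT₀ (k + 1)
    rw [Function.iterate_succ_apply', ← hT₀ k] at h1
    exact h1.symm
  -- the operator on the closed span
  set T₁ : W →L[ℂ] L2 :=
    LinearMap.mkContinuous
      { toFun := fun x => T₀ x
        map_add' := fun x y => hadd _ x.2 _ y.2
        map_smul' := fun c x => hsmul c _ x.2 } C (fun x => hC _ x.2) with hT₁
  set e : W →L[ℂ] K := LinearMap.mkContinuous (Submodule.inclusion hWK) 1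
    (fun x => by rw [one_mul]; exact le_of_eq rfl) with he
  have hdr : DenseRange e := by
    intro x
    rw [Metric.mem_closure_iff]
    intro ε hε
    obtain ⟨y, hy, hxy⟩ := Metric.mem_closure_iff.1 (hKc x) ε hε
    exact ⟨e ⟨y, hy⟩, ⟨_, rfl⟩, hxy⟩
  have hui : IsUniformInducing e := by
    have : Isometry e := by
      apply AddMonoidHomClass.isometry_of_norm
      intro x; rfl
    exact this.isUniformInducing
  set T₂ : K →L[ℂ] L2 := ContinuousLinearMap.extend T₁ e with hT₂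
  have hT₂f : ∀ k, T₂ (f' (σ k)) = f (σ (k + 1)) := by
    intro k
    have h1 := ContinuousLinearMap.extend_eq (f := T₁) hdr hui
      ⟨f (σ k), Submodule.subset_span ⟨σ k, rfl⟩⟩
    rw [← hTf k]
    exact h1
  set T : K →L[ℂ] K := K.orthogonalProjectionOnto.comp T₂ with hT
  have hTf' : ∀ k, T (f' (σ k)) = f' (σ (k + 1)) := by
    intro k
    rw [hT, ContinuousLinearMap.comp_apply, hT₂f]
    exact K.orthogonalProjectionOnto_mem_subspace_eq_self (f' (σ (k + 1)))
  have hmap : ∀ (m : ℤ) (x : L2), x ∈ K → tf (m * b) 0 x ∈ K := by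
    intro m
    have h1 : K ≤ K.comap (tf (m * b) 0).toLinearMap := by
      apply Submodule.topologicalClosure_minimal
      · rw [hW, Submodule.span_le]
        rintro _ ⟨k, rfl⟩
        change tf (m * b) 0 (f k) ∈ K
        rw [shift_tf b φ f hf]
        exact hfK _
      · exact W.isClosed_topologicalClosure.preimage (tf (m * b) 0).continuous
    exact fun x hx => h1 hx
  have hom : ∀ i j : ℤ, ∃ (π : K →ₗᵢ[ℂ] K) (ρ : ℤ ≃ ℤ), (∀ k, π (f' k) = f' (ρ k)) ∧ ρ i = j := by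
    intro i j
    refine ⟨{ toLinearMap := (tf (((j - i : ℤ) : ℝ) * b) 0).toLinearMap.restrict (hmap (j - i))
              norm_map' := fun x => (tf (((j - i : ℤ) : ℝ) * b) 0).norm_map (x : L2) },
      Equiv.addRight (j - i), fun k => ?_, by simp⟩
    apply Subtype.ext
    exact shift_tf b φ f hf (j - i) k
  have hne : ∃ i, f' i ≠ 0 := by
    refine ⟨0, fun h0 => hφ ?_⟩
    rw [← hf0]
    exact congrArg Subtype.val h0
  obtain ⟨A₁, B₁, hA₁, hB₁, hr⟩ := no_orbit f' hB' A hA hA' hom hne σ T hTf'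
  refine ⟨A₁, B₁, hA₁, hB₁, fun s c => ?_⟩
  have h1 := hr s c
  have h2 : ‖∑ i ∈ s, c i • f' i‖ = ‖∑ i ∈ s, c i • f i‖ := by
    have h3 : ((∑ i ∈ s, c i • f' i : K) : L2) = ∑ i ∈ s, c i • f i := by
      simp [hf']
    rw [← h3]
    rfl
  rw [h2] at h1
  exact h1

end Pool.Agent.Results.MP_909498_an.TranslateOrbit
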